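import Pool.Agent.P8H32.FN.Low4
import Pool.Agent.P8H32.FN.Ex2

set_option autoImplicit false

/-!
# The optimal sampling rate for Fourier neural operator approximation classes

Two-sided bounds: the rate is at least `min (1/2) (α/6)` for all `K` and `ρ`, and at most
`min (1/2) (α/3)` when the law of the mean value has a density bounded below on an interval. So for such
`ρ` the rate is one half for all `α ≥ 3`, and less than one half for all `α < 3/2`.
-/

namespace Pool.Agent.Results.MP_ae7024_an.RateOfSampling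

open Pool.Agent.P8H32.FN MeasureTheory

theorem result :
    -- (1) a lower bound for all the sets `K` and all the measures `ρ`
    (∀ d : ℕ, 1 ≤ d → ∀ (K : Set (L2 d)) (ρ : Measure (L2 d)), Setting K ρ → ∀ α : ℝ, 0 < α →
      ((min (1 / 2) (α / 6) : ℝ) : EReal) ≤ rate ρ (Ball K α)) ∧
    -- (2) an upper bound when the law of the mean value has a density
    (∀ (d : ℕ) (K : Set (L2 d)) (ρ : Measure (L2 d)), Setting K ρ → MeanDensity ρ →
      ∀ α : ℝ, 0 < α → rate ρ (Ball K α) ≤ ((min (1 / 2) (α / 3) : ℝ) : EReal)) ∧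
    -- (3) there are such `K` and `ρ` in each dimension
    (∀ d : ℕ, 1 ≤ d → ∃ (K : Set (L2 d)) (ρ : Measure (L2 d)), Setting K ρ ∧ MeanDensity ρ ∧
      (∀ α : ℝ, 0 < α → α < 3 / 2 → rate ρ (Ball K α) < ((1 / 2 : ℝ) : EReal)) ∧
      (∀ α : ℝ, 3 ≤ α → rate ρ (Ball K α) = ((1 / 2 : ℝ) : EReal))) := by
  have h1 : ∀ (d : ℕ) (K : Set (L2 d)) (ρ : Measure (L2 d)), Setting K ρ → MeanDensity ρ →
      ∀ α : ℝ, 0 < α → rate ρ (Ball K α) ≤ ((min (1 / 2) (α / 3) : ℝ) : EReal) := by
    intro d K ρ hS hD α hα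
    rcases le_total (1 / 2 : ℝ) (α / 3) with h | h
    · rw [min_eq_left h]
      exact rate_le_half hS hD hα
    · rw [min_eq_right h]
      exact rate_le_third hS hD hα
  refine ⟨fun d hd K ρ hS α hα => rate_ge hd hS hα, h1, fun d hd => ?_⟩
  have : NeZero d := ⟨by omega⟩
  refine ⟨exK d, exρ d, setting_ex d, density_ex d, fun α hα hα2 => ?_, fun α hα => ?_⟩
  · refine lt_of_le_of_lt (h1 d _ _ (setting_ex d) (density_ex d) α hα) ?_
    rw [EReal.coe_lt_coe_iff, min_eq_right (by linarith)]
    linarith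
  · apply le_antisymm
    · have h2 := h1 d _ _ (setting_ex d) (density_ex d) α (by linarith)
      rwa [min_eq_left (by linarith)] at h2
    · have h2 := rate_ge hd (setting_ex d) (show 0 < α by linarith)
      rwa [min_eq_left (by linarith)] at h2

end Pool.Agent.Results.MP_ae7024_an.RateOfSampling
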